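import Mathlib

set_option autoImplicit false

open scoped Kronecker

namespace Pool.Agent.Results.MP_f8e91b_al.Counterexample

/-- Minimal rank of the completions of the entries of `a` indexed by `J`. -/
noncomputable def mr {F ι κ : Type*} [Field F] [Fintype κ] (J : Set (ι × κ)) (a : Matrix ι κ F) :
    ℕ :=
  sInf {r | ∃ B : Matrix ι κ F, (∀ p ∈ J, B p.1 p.2 = a p.1 p.2) ∧ B.rank = r}

/-- Triangular patterns. -/
def Tri {ι κ : Type*} (T : Set (ι × κ)) : Prop :=
  ∀ i j k l, (i, j) ∈ T → (k, l) ∈ T → (i, l) ∈ T ∨ (k, j) ∈ T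

/-- Triangular minimal rank. -/
noncomputable def tmr {F ι κ : Type*} [Field F] [Fintype κ] (J : Set (ι × κ))
    (a : Matrix ι κ F) : ℕ :=
  sSup {r | ∃ T, Maximal (fun S => S ⊆ J ∧ Tri S) T ∧ mr T a = r}

/-- Fractional minimal rank. -/
noncomputable def fmr {F ι κ : Type*} [Field F] [Fintype κ] (J : Set (ι × κ))
    (a : Matrix ι κ F) : ℝ :=
  ⨅ b : ℕ+, (mr {p : (ι × Fin b) × (κ × Fin b) | (p.1.1, p.2.1) ∈ J}
    (a ⊗ₖ (1 : Matrix (Fin b) (Fin b) F)) : ℝ) / (b : ℕ)

theorem mr_le {F ι κ : Type*} [Field F] [Fintype κ] {J : Set (ι × κ)} {a : Matrix ι κ F}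
    (B : Matrix ι κ F) (h : ∀ p ∈ J, B p.1 p.2 = a p.1 p.2) : mr J a ≤ B.rank :=
  Nat.sInf_le ⟨B, h, rfl⟩

theorem le_mr {F ι κ : Type*} [Field F] [Fintype κ] {J : Set (ι × κ)} {a : Matrix ι κ F} {r : ℕ}
    (h : ∀ B : Matrix ι κ F, (∀ p ∈ J, B p.1 p.2 = a p.1 p.2) → r ≤ B.rank) : r ≤ mr J a :=
  le_csInf ⟨_, a, fun _ _ => rfl, rfl⟩ (by rintro _ ⟨B, hB, rfl⟩; exact h B hB)

def K (i j : Fin 15) : Prop :=
  (i.val / 5 = 2 ↔ j.val / 5 = 2) ∧
    (i.val / 5 = j.val / 5 → i.val < 10 → (i.val + 1) % 5 ≠ j.val % 5 ∧ (j.val + 1) % 5 ≠ i.val % 5)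

instance (i j : Fin 15) : Decidable (K i j) := by unfold K; infer_instance

def φ (x : Fin 15 × Fin 2) : Fin 10 :=
  if x.1.val < 10 then ⟨(5 * (x.1.val / 5) + (x.1.val + 4 * x.2.val) % 5) % 10, by omega⟩
  else ⟨(5 * x.2.val + x.1.val % 5) % 10, by omega⟩

theorem φ_spec : ∀ i j : Fin 15, K i j → ∀ s t : Fin 2, (φ (i, s) = φ (j, t) ↔ i = j ∧ s = t) := by
  decide +kernel

theorem K_symm : ∀ i j : Fin 15, K i j → K j i := by decide +kernel

def e (i : Fin 5) : Fin 15 := ⟨10 + i.val, by omega⟩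

theorem minor {F : Type*} [Field F] (B : Matrix (Fin 5) (Fin 5) F) (h1 : ∀ i, B i i = 1)
    (h0 : ∀ i j : Fin 5, i ≠ j → (i.val + 1) % 5 ≠ j.val → (j.val + 1) % 5 ≠ i.val → B i j = 0) :
    ∃ r c : Fin 3 → Fin 5, (B.submatrix r c).det ≠ 0 := by
  by_contra h
  push Not at h
  have a1 := h ![0, 2, 3] ![0, 2, 3]
  have a2 := h ![0, 2, 3] ![0, 2, 1]
  have a3 := h ![0, 2, 4] ![0, 2, 4]
  have a4 := h ![0, 2, 4] ![0, 2, 1]
  have a5 := h ![0, 2, 1] ![0, 2, 1]
  have z02 := h0 0 2 (by decide) (by decide) (by decide)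
  have z20 := h0 2 0 (by decide) (by decide) (by decide)
  have z03 := h0 0 3 (by decide) (by decide) (by decide)
  have z30 := h0 3 0 (by decide) (by decide) (by decide)
  have z31 := h0 3 1 (by decide) (by decide) (by decide)
  have z24 := h0 2 4 (by decide) (by decide) (by decide)
  have z42 := h0 4 2 (by decide) (by decide) (by decide)
  have z41 := h0 4 1 (by decide) (by decide) (by decide)
  simp only [Matrix.det_fin_three, Matrix.submatrix_apply, Matrix.cons_val_zero,
    Matrix.cons_val_one, Matrix.cons_val, h1, z02, z20, z03, z30, z31, z24, z42, z41] at a1 a2 a3 a4 a5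
  have b21 : B 2 1 = 0 := by linear_combination B 2 1 * a1 - B 2 3 * a2
  have b01 : B 0 1 = 0 := by linear_combination B 0 1 * a3 - B 0 4 * a4
  rw [b21, b01] at a5
  simp at a5

/-- A pattern with triangular and fractional minimal rank five and larger minimal rank. -/
theorem result (F : Type*) [Field F] :
    ∃ (m n : ℕ) (J : Set (Fin m × Fin n)) (a : Matrix (Fin m) (Fin n) F),
      tmr J a = 5 ∧ fmr J a = 5 ∧ 5 < mr J a := by
  classical
  refine ⟨15, 15, {p | K p.1 p.2}, 1, ?_, ?_, ?_⟩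
  · refine IsGreatest.csSup_eq ⟨⟨{p | 10 ≤ p.1.val ∧ 10 ≤ p.2.val}, ⟨⟨?_, ?_⟩, ?_⟩, ?_⟩, ?_⟩
    · rintro ⟨i, j⟩ ⟨hi, hj⟩
      constructor <;> simp only at * <;> omega
    · rintro i j k l ⟨h1, -⟩ ⟨-, h2⟩
      exact Or.inl ⟨h1, h2⟩
    · rintro S ⟨hS, hT⟩ hle ⟨i, j⟩ hij
      have h1 := (hS hij).1
      rcases hT i j 10 10 hij (hle ⟨le_rfl, le_rfl⟩) with h | h <;> have h2 := (hS h).1 <;>
        constructor <;> simp at * <;> omega
    · apply le_antisymm
      · refine (mr_le (Matrix.diagonal fun i => if 10 ≤ i.val then 1 else 0) ?_).trans ?_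
        · rintro ⟨i, j⟩ ⟨hi, -⟩
          simp only at hi
          simp [Matrix.diagonal_apply, Matrix.one_apply, hi]
        · rw [Matrix.rank_diagonal]
          simp only [ne_eq, ite_eq_right_iff, one_ne_zero, imp_false, not_not]
          rw [Fintype.card_subtype]
          decide
      · refine le_mr fun B hB => ?_
        refine le_trans ?_ (B.rank_submatrix_le e e)
        have : B.submatrix e e = 1 := by
          ext i j
          rw [Matrix.submatrix_apply, hB (e i, e j) ⟨by simp [e], by simp [e]⟩]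
          simp [Matrix.one_apply, e, Fin.ext_iff]
        simp [this]
    · rintro _ ⟨T, ⟨⟨hJ, hT⟩, -⟩, rfl⟩
      refine (mr_le (Matrix.diagonal fun i => if (i, i) ∈ T then 1 else 0) ?_).trans ?_
      · rintro ⟨i, j⟩ hij
        by_cases h : i = j
        · subst h
          simp [hij]
        · simp [h]
      · rw [Matrix.rank_diagonal]
        simp only [ne_eq, ite_eq_right_iff, one_ne_zero, imp_false, not_not]
        have := Fintype.card_le_of_injective
          (fun x : {i // (i, i) ∈ T} × Fin 2 => φ (x.1.val, x.2)) (by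
            rintro ⟨⟨i, hi⟩, s⟩ ⟨⟨j, hj⟩, t⟩ h
            have hk : K i j := (hT i i j j hi hj).elim (fun h => hJ h) fun h => K_symm _ _ (hJ h)
            obtain ⟨rfl, rfl⟩ := (φ_spec i j hk s t).1 h
            rfl)
        simp only [Fintype.card_prod, Fintype.card_fin] at this
        convert (by omega : Fintype.card {i // (i, i) ∈ T} ≤ 5)
  · apply le_antisymm
    · refine ciInf_le_of_le ⟨0, by rintro _ ⟨b, rfl⟩; positivity⟩ 2 ?_
      have : mr {p : (Fin 15 × Fin 2) × (Fin 15 × Fin 2) | (p.1.1, p.2.1) ∈ {p | K p.1 p.2}}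
          ((1 : Matrix (Fin 15) (Fin 15) F) ⊗ₖ (1 : Matrix (Fin 2) (Fin 2) F)) ≤ 10 := by
        let U : Matrix (Fin 15 × Fin 2) (Fin 10) F := fun x k => if φ x = k then 1 else 0
        refine (mr_le (U * U.transpose) ?_).trans
          ((Matrix.rank_mul_le_left _ _).trans (by simpa using U.rank_le_card_width))
        rintro ⟨⟨i, s⟩, ⟨j, t⟩⟩ hk
        have := φ_spec i j hk s t
        simp only [Matrix.mul_apply, U, Matrix.transpose_apply, ite_mul, one_mul, zero_mul,
          Finset.sum_ite_eq, Finset.mem_univ, if_true, Matrix.one_kronecker_one, Matrix.one_apply,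
          Prod.mk.injEq, ← this]
        simp only [eq_comm]
      rw [div_le_iff₀ (by norm_num)]
      exact_mod_cast this
    · refine le_ciInf fun b => ?_
      rw [le_div_iff₀ (by exact_mod_cast b.pos)]
      norm_cast
      refine le_mr fun B hB => ?_
      refine le_trans ?_ (B.rank_submatrix_le (Prod.map e id) (Prod.map e id))
      have : B.submatrix (Prod.map e id) (Prod.map e id) = 1 := by
        ext ⟨i, s⟩ ⟨j, t⟩
        refine (hB ((e i, s), (e j, t))
          ⟨by simp only [e]; omega, by simp only [e]; omega⟩).trans ?_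
        rw [Matrix.one_kronecker_one]
        simp [Matrix.one_apply, e, Fin.ext_iff]
      simp [this]
  · refine le_mr fun B hB => ?_
    let u : Fin 5 → Fin 15 := fun i => ⟨i.val, by omega⟩
    let v : Fin 5 → Fin 15 := fun i => ⟨5 + i.val, by omega⟩
    have hz : ∀ i j, K i j → i ≠ j → B i j = 0 := fun i j h hij => by
      simpa [hij] using hB (i, j) h
    have ho : ∀ i, B i i = 1 := fun i => by
      simpa using hB (i, i) ⟨Iff.rfl, by simp only; omega⟩
    obtain ⟨r, c, h⟩ := minor (B.submatrix u u) (fun i => ho _) fun i j h1 h2 h3 =>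
      hz _ _ ⟨by simp only [u]; omega, by simp only [u]; omega⟩ (by simpa [u, Fin.ext_iff] using h1)
    obtain ⟨r', c', h'⟩ := minor (B.submatrix v v) (fun i => ho _) fun i j h1 h2 h3 =>
      hz _ _ ⟨by simp only [v]; omega, by simp only [v]; omega⟩ (by simpa [v, Fin.ext_iff] using h1)
    refine le_trans ?_
      (B.rank_submatrix_le (Sum.elim (u ∘ r) (v ∘ r')) (Sum.elim (u ∘ c) (v ∘ c')))
    have : B.submatrix (Sum.elim (u ∘ r) (v ∘ r')) (Sum.elim (u ∘ c) (v ∘ c')) =
        Matrix.fromBlocks ((B.submatrix u u).submatrix r c) 0 0 ((B.submatrix v v).submatrix r' c') := by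
      ext (i | i) (j | j)
      · rfl
      · exact hz _ _ ⟨by simp only [u, v, Sum.elim_inl, Sum.elim_inr, Function.comp]; omega,
          by simp only [u, v, Sum.elim_inl, Sum.elim_inr, Function.comp]; omega⟩
          (by simp only [u, v, Sum.elim_inl, Sum.elim_inr, Function.comp, ne_eq, Fin.ext_iff]; omega)
      · exact hz _ _ ⟨by simp only [u, v, Sum.elim_inl, Sum.elim_inr, Function.comp]; omega,
          by simp only [u, v, Sum.elim_inl, Sum.elim_inr, Function.comp]; omega⟩
          (by simp only [u, v, Sum.elim_inl, Sum.elim_inr, Function.comp, ne_eq, Fin.ext_iff]; omega)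
      · rfl
    rw [this, Matrix.rank_of_det_ne_zero (by rw [Matrix.det_fromBlocks_zero₂₁]; exact mul_ne_zero h h')]
    simp

end Pool.Agent.Results.MP_f8e91b_al.Counterexample
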